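import Pool.Agent.MP_bd9ace_nt.H98.Main

namespace Pool.Agent.Results.MP_bd9ace_nt.Dickson

theorem result :
    ∃ C : ℝ, ∀ n : ℕ, Odd n → 1 < n →
      (ArithmeticFunction.sigma 1 n).primeFactors ⊆ n.primeFactors →
      ∃ d : ℕ, 1 < d ∧ d ∣ n ∧ Nat.Coprime d (n / d) ∧
        d.primeFactors = (ArithmeticFunction.sigma 1 d).primeFactors ∧
        Real.log (Real.log d) ≤ C ^ d.primeFactors.card :=
  Pool.Agent.MP_bd9ace_nt.H98.main

end Pool.Agent.Results.MP_bd9ace_nt.Dickson
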