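import Pool.Agent.MP_bd9ace_nt.H68.Main

set_option autoImplicit false

namespace Pool.Agent.Results.MP_bd9ace_nt.LeastPrime

theorem result (n : ℕ) (hn : 1 < n)
    (h : (ArithmeticFunction.sigma 1 n).primeFactors ⊆ n.primeFactors) :
    n.minFac ≤ 2 * (4 * Nat.log 2 n + 2) ^ (n.primeFactors.card - 1) :=
  Pool.Agent.MP_bd9ace_nt.H68.minFac_le hn h

end Pool.Agent.Results.MP_bd9ace_nt.LeastPrime
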