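import Pool.Agent.MP_bd9ace_nt.H68.Main

set_option autoImplicit false

namespace Pool.Agent.Results.MP_bd9ace_nt.OddCount

theorem result :
    ∃ C : ℝ, ∀ x : ℕ, 3 ≤ x →
      (({n : ℕ | n ≤ x ∧ Odd n ∧
          n.primeFactors = (ArithmeticFunction.sigma 1 n).primeFactors}.ncard : ℕ) : ℝ)
        ≤ (x : ℝ) ^ (1 / 6 : ℝ)
          * Real.exp (C * (Real.log (x : ℝ) / Real.log (Real.log (x : ℝ)))) :=
  ⟨614, fun _ hx => Pool.Agent.MP_bd9ace_nt.H68.count_odd hx⟩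

end Pool.Agent.Results.MP_bd9ace_nt.OddCount
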