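import Pool.Agent.MP_bd9ace_nt.H68.Main

set_option autoImplicit false

namespace Pool.Agent.Results.MP_bd9ace_nt.PrimitiveCount

/-- `n` and `σ(n)` have the same prime factors. -/
def PrimePerfect (n : ℕ) : Prop :=
  n.primeFactors = (ArithmeticFunction.sigma 1 n).primeFactors

/-- `n > 1` is prime-perfect and no unitary divisor `1 < d < n` of `n` is prime-perfect. -/
def Primitive (n : ℕ) : Prop :=
  1 < n ∧ PrimePerfect n ∧
    ∀ d : ℕ, 1 < d → d ∣ n → Nat.Coprime d (n / d) → PrimePerfect d → d = n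

theorem result :
    ∃ C : ℝ, ∀ x : ℕ, 3 ≤ x →
      (({n : ℕ | n ≤ x ∧ Primitive n}.ncard : ℕ) : ℝ)
        ≤ Real.exp (C * (Real.log (x : ℝ) / Real.log (Real.log (x : ℝ)))) := by
  refine ⟨614, fun x hx => ?_⟩
  have e : {n : ℕ | n ≤ x ∧ Primitive n}
      = {n : ℕ | n ≤ x ∧ 1 < n ∧ Pool.Agent.MP_bd9ace_nt.H68.PP n ∧
        ∀ c, 1 < c → Pool.Agent.MP_bd9ace_nt.H68.Uni c n →
          Pool.Agent.MP_bd9ace_nt.H68.PP c → c = n} := by
    ext n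
    exact ⟨fun h => ⟨h.1, h.2.1, h.2.2.1, fun c h1 h2 h3 => h.2.2.2 c h1 h2.1 h2.2 h3⟩,
      fun h => ⟨h.1, h.2.1, h.2.2.1, fun c h1 h2 h3 h4 => h.2.2.2 c h1 ⟨h2, h3⟩ h4⟩⟩
  rw [e]
  exact Pool.Agent.MP_bd9ace_nt.H68.count_prim hx

end Pool.Agent.Results.MP_bd9ace_nt.PrimitiveCount
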